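import Mathlib

set_option autoImplicit false

namespace Pool.Agent.H359Z.Chi

open Finset

/-- reciprocal masses of the string -/
noncomputable def lam (n : ℕ) : ℝ :=
  if n.sqrt ^ 2 = n then (n.sqrt : ℝ) + 1 else 8 * (2 * (n.sqrt : ℝ) + 1) ^ 2

lemma lam_ge (n : ℕ) : (n.sqrt : ℝ) + 1 ≤ lam n := by
  unfold lam
  have : (0 : ℝ) ≤ n.sqrt := Nat.cast_nonneg _
  split_ifs
  · exact le_rfl
  · nlinarith

lemma lam_pos (n : ℕ) : 0 < lam n := lt_of_lt_of_le (by positivity) (lam_ge n)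

lemma sqrt_block {k j : ℕ} (h : j < 2 * k + 1) : (k ^ 2 + j).sqrt = k :=
  Nat.sqrt_add_eq' k (by omega)

lemma lam_sq (k : ℕ) : lam (k ^ 2) = k + 1 := by
  unfold lam
  rw [Nat.sqrt_eq']; simp

lemma lam_mid {k j : ℕ} (h0 : 0 < j) (h : j < 2 * k + 1) : lam (k ^ 2 + j) = 8 * (2 * k + 1) ^ 2 := by
  unfold lam
  rw [sqrt_block h, if_neg (by omega)]

lemma sum_blocks (F : ℕ → ℝ) (K : ℕ) :
    ∑ n ∈ range (K ^ 2), F n = ∑ k ∈ range K, ∑ j ∈ range (2 * k + 1), F (k ^ 2 + j) := by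
  induction K with
  | zero => simp
  | succ K ih =>
    have : (K + 1) ^ 2 = K ^ 2 + (2 * K + 1) := by ring
    rw [this, sum_range_add, ih, sum_range_succ (n := K)]

/-- discrete Laplacian with a Dirichlet condition -/
def Lp (w : ℕ → ℝ) (n : ℕ) : ℝ := 2 * w n - w (n + 1) - if n = 0 then 0 else w (n - 1)

lemma green (w u : ℕ → ℝ) (N : ℕ) : ∑ n ∈ range (N + 1), Lp w n * u n
    = w 0 * u 0 + ∑ n ∈ range N, (w (n + 1) - w n) * (u (n + 1) - u n) - (w (N + 1) - w N) * u N := by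
  induction N with
  | zero => simp [Lp]; ring
  | succ N ih =>
    rw [sum_range_succ, ih, sum_range_succ]
    simp [Lp]; ring

lemma green' (w u : ℕ → ℝ) (N : ℕ) (h : u N = 0) : ∑ n ∈ range N, Lp w n * u n
    = w 0 * u 0 + ∑ n ∈ range N, (w (n + 1) - w n) * (u (n + 1) - u n) := by
  have := green w u N
  rw [sum_range_succ, h] at this
  simpa using this

/-- piecewise linear interpolation between the squares -/
noncomputable def itp (w : ℕ → ℝ) (n : ℕ) : ℝ :=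
  w (n.sqrt ^ 2) + ((n : ℝ) - n.sqrt ^ 2) / (2 * n.sqrt + 1) * (w ((n.sqrt + 1) ^ 2) - w (n.sqrt ^ 2))

lemma itp_sq (w : ℕ → ℝ) (k : ℕ) : itp w (k ^ 2) = w (k ^ 2) := by
  unfold itp; rw [Nat.sqrt_eq']; simp

lemma itp_block (w : ℕ → ℝ) {k j : ℕ} (h : j ≤ 2 * k + 1) :
    itp w (k ^ 2 + j) = w (k ^ 2) + (j : ℝ) / (2 * k + 1) * (w ((k + 1) ^ 2) - w (k ^ 2)) := by
  rcases h.lt_or_eq with h | h
  · unfold itp; rw [sqrt_block h]; push_cast; ring
  · have : k ^ 2 + j = (k + 1) ^ 2 := by rw [h]; ring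
    rw [this, itp_sq, h]
    push_cast
    have : (2 * (k : ℝ) + 1) ≠ 0 := by positivity
    field_simp; ring

lemma energy_itp (w : ℕ → ℝ) (K : ℕ) :
    ∑ n ∈ range (K ^ 2), (itp w (n + 1) - itp w n) ^ 2
      = ∑ k ∈ range K, (w ((k + 1) ^ 2) - w (k ^ 2)) ^ 2 / (2 * k + 1) := by
  rw [sum_blocks]
  refine sum_congr rfl fun k _ => ?_
  have h0 : (2 * (k : ℝ) + 1) ≠ 0 := by positivity
  rw [sum_congr rfl (g := fun _ => ((w ((k + 1) ^ 2) - w (k ^ 2)) / (2 * k + 1)) ^ 2)]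
  · rw [sum_const, card_range, nsmul_eq_mul]; push_cast; field_simp
  · intro j hj
    have hj' := mem_range.1 hj
    rw [add_assoc, itp_block w (by omega), itp_block w (by omega)]
    push_cast; field_simp; ring

lemma low_bound (c : ℕ → ℝ) (K : ℕ) :
    c 0 ^ 2 + ∑ k ∈ range K, (c (k + 1) - c k) ^ 2 / (2 * k + 1)
      ≤ 6 * ∑ k ∈ range K, c k ^ 2 / (k + 1) + 4 * c K ^ 2 / (K + 1) := by
  induction K with
  | zero => simp; nlinarith [sq_nonneg (c 0)]
  | succ K ih =>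
    rw [sum_range_succ, sum_range_succ]
    have hK : (0 : ℝ) ≤ K := Nat.cast_nonneg _
    have h1 : (c (K + 1) - c K) ^ 2 / (2 * K + 1) ≤ 2 * c K ^ 2 / (K + 1) + 4 * c (K + 1) ^ 2 / (K + 1 + 1) := by
      have a1 : (c (K + 1) - c K) ^ 2 / (2 * K + 1) ≤ (2 * c K ^ 2 + 2 * c (K + 1) ^ 2) / (2 * K + 1) := by
        gcongr; nlinarith [sq_nonneg (c (K + 1) + c K)]
      have a2 : 2 * c K ^ 2 / (2 * K + 1) ≤ 2 * c K ^ 2 / (K + 1) := by gcongr; linarith
      have a3 : 2 * c (K + 1) ^ 2 / (2 * K + 1) ≤ 4 * c (K + 1) ^ 2 / (K + 1 + 1) := by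
        rw [div_le_div_iff₀ (by positivity) (by positivity)]
        nlinarith [sq_nonneg (c (K + 1)), mul_nonneg hK (sq_nonneg (c (K + 1)))]
      rw [add_div] at a1
      linarith
    push_cast
    have e1 : 6 * (c K ^ 2 / (K + 1)) = 4 * c K ^ 2 / (K + 1) + 2 * c K ^ 2 / (K + 1) := by ring
    linarith

lemma mass_ge (h : ℕ → ℝ) (K : ℕ) :
    ∑ k ∈ range K, h (k ^ 2) ^ 2 / (k + 1) ≤ ∑ n ∈ range (K ^ 2), h n ^ 2 / lam n := by
  rw [sum_blocks]
  refine sum_le_sum fun k _ => ?_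
  have := single_le_sum (f := fun j => h (k ^ 2 + j) ^ 2 / lam (k ^ 2 + j)) (s := range (2 * k + 1))
    (fun j _ => div_nonneg (sq_nonneg _) (lam_pos _).le) (mem_range.2 (Nat.succ_pos _))
  simpa [lam_sq] using this

lemma poincare (g : ℕ → ℝ) (hg : ∀ k, g (k ^ 2) = 0) (K : ℕ) :
    8 * ∑ n ∈ range (K ^ 2), g n ^ 2 / lam n ≤ ∑ n ∈ range (K ^ 2), (g (n + 1) - g n) ^ 2 := by
  rw [sum_blocks, sum_blocks, mul_sum]
  refine sum_le_sum fun k _ => ?_
  set e := ∑ j ∈ range (2 * k + 1), (g (k ^ 2 + j + 1) - g (k ^ 2 + j)) ^ 2 with he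
  have he0 : 0 ≤ e := sum_nonneg fun _ _ => sq_nonneg _
  have h0 : (0 : ℝ) < 2 * k + 1 := by positivity
  have h1 : ∀ j ∈ range (2 * k + 1), g (k ^ 2 + j) ^ 2 / lam (k ^ 2 + j) ≤ e / (8 * (2 * k + 1)) := by
    intro j hj
    have hj' := mem_range.1 hj
    rcases Nat.eq_zero_or_pos j with rfl | hj0
    · simp [hg]; positivity
    rw [lam_mid hj0 hj']
    have h2 : g (k ^ 2 + j) = ∑ i ∈ range j, (g (k ^ 2 + i + 1) - g (k ^ 2 + i)) := by
      have := sum_range_sub (fun i => g (k ^ 2 + i)) j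
      simp only [add_zero, hg, sub_zero] at this
      rw [← this]; rfl
    have h3 : g (k ^ 2 + j) ^ 2 ≤ j * ∑ i ∈ range j, (g (k ^ 2 + i + 1) - g (k ^ 2 + i)) ^ 2 := by
      rw [h2]
      have := sq_sum_le_card_mul_sum_sq (s := range j) (f := fun i => g (k ^ 2 + i + 1) - g (k ^ 2 + i))
      simpa using this
    have h4 : ∑ i ∈ range j, (g (k ^ 2 + i + 1) - g (k ^ 2 + i)) ^ 2 ≤ e :=
      sum_le_sum_of_subset_of_nonneg (range_subset_range.2 hj'.le) fun _ _ _ => sq_nonneg _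
    have h5 : (j : ℝ) ≤ 2 * k + 1 := by exact_mod_cast hj'.le
    have h6 : g (k ^ 2 + j) ^ 2 ≤ (2 * k + 1) * e := by
      refine h3.trans ?_
      gcongr
    rw [div_le_div_iff₀ (by positivity) (by positivity)]
    calc g (k ^ 2 + j) ^ 2 * (8 * (2 * k + 1)) ≤ (2 * k + 1) * e * (8 * (2 * k + 1)) := by gcongr
      _ = _ := by ring
  have h7 := sum_le_sum h1
  rw [sum_const, card_range, nsmul_eq_mul] at h7
  push_cast at h7
  have : (2 * (k : ℝ) + 1) * (e / (8 * (2 * k + 1))) = e / 8 := by field_simp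
  linarith

/-- the residual in the string variables -/
noncomputable def res (t : ℝ) (w : ℕ → ℝ) (n : ℕ) : ℝ := lam n * Lp w n - t * w n

lemma pair_eq (t : ℝ) (w u : ℕ → ℝ) (N : ℕ) :
    ∑ n ∈ range N, res t w n * u n / lam n
      = ∑ n ∈ range N, Lp w n * u n - t * ∑ n ∈ range N, w n * u n / lam n := by
  rw [mul_sum, ← sum_sub_distrib]
  refine sum_congr rfl fun n _ => ?_
  have := (lam_pos n).ne'
  unfold res; field_simp

lemma gap_seven (w : ℕ → ℝ) (K : ℕ) (hw : w (K ^ 2) = 0) :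
    ∑ n ∈ range (K ^ 2), w n ^ 2 / lam n ≤ 4 * ∑ n ∈ range (K ^ 2), res 7 w n ^ 2 / lam n := by
  set h := itp w with hh
  set g : ℕ → ℝ := fun n => w n - h n with hg
  have hg0 : ∀ k, g (k ^ 2) = 0 := fun k => by simp [hg, hh, itp_sq]
  have hh0 : ∀ k, h (k ^ 2) = w (k ^ 2) := fun k => itp_sq w k
  have h1 := pair_eq 7 w (fun n => g n - h n) (K ^ 2)
  rw [green' w _ _ (by simp only [hg0, hh0, hw]; ring)] at h1
  have hz : g 0 = 0 := hg0 0
  have hz' : h 0 = w 0 := hh0 0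
  have e1 : ∑ n ∈ range (K ^ 2), (w (n + 1) - w n) * (g (n + 1) - h (n + 1) - (g n - h n))
      = ∑ n ∈ range (K ^ 2), (g (n + 1) - g n) ^ 2 - ∑ n ∈ range (K ^ 2), (h (n + 1) - h n) ^ 2 := by
    rw [← sum_sub_distrib]
    refine sum_congr rfl fun n _ => ?_
    simp only [hg]; ring
  have e2 : ∑ n ∈ range (K ^ 2), w n * (g n - h n) / lam n
      = ∑ n ∈ range (K ^ 2), g n ^ 2 / lam n - ∑ n ∈ range (K ^ 2), h n ^ 2 / lam n := by
    rw [← sum_sub_distrib]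
    refine sum_congr rfl fun n _ => ?_
    simp only [hg]; ring
  rw [e1, e2, hz, hz'] at h1
  have h2 := poincare g hg0 K
  have h3 := energy_itp w K
  have h4 := low_bound (fun k => w (k ^ 2)) K
  have h5 := mass_ge h K
  simp only [hh0] at h5
  simp only [hw] at h4
  have h6 : ∑ n ∈ range (K ^ 2), res 7 w n * (g n - h n) / lam n
      ≤ ∑ n ∈ range (K ^ 2), res 7 w n ^ 2 / lam n
        + (∑ n ∈ range (K ^ 2), g n ^ 2 / lam n + ∑ n ∈ range (K ^ 2), h n ^ 2 / lam n) / 2 := by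
    rw [← sum_add_distrib, sum_div, ← sum_add_distrib]
    refine sum_le_sum fun n _ => ?_
    have hl := lam_pos n
    have : res 7 w n ^ 2 / lam n + (g n ^ 2 / lam n + h n ^ 2 / lam n) / 2
        = (res 7 w n ^ 2 + (g n ^ 2 + h n ^ 2) / 2) / lam n := by ring
    rw [this]
    gcongr
    nlinarith [sq_nonneg (res 7 w n - (g n - h n) / 2), sq_nonneg (g n + h n)]
  have h7 : ∑ n ∈ range (K ^ 2), w n ^ 2 / lam n
      ≤ 2 * (∑ n ∈ range (K ^ 2), g n ^ 2 / lam n + ∑ n ∈ range (K ^ 2), h n ^ 2 / lam n) := by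
    rw [← sum_add_distrib, mul_sum]
    refine sum_le_sum fun n _ => ?_
    have hl := lam_pos n
    have : 2 * (g n ^ 2 / lam n + h n ^ 2 / lam n) = (2 * (g n ^ 2 + h n ^ 2)) / lam n := by ring
    rw [this]
    gcongr
    have : w n = g n + h n := by simp [hg]
    rw [this]
    nlinarith [sq_nonneg (g n - h n)]
  have e0 : (0 : ℕ) ^ 2 = 0 := rfl
  rw [e0] at h4
  rw [← hh] at h3
  simp only [ne_eq, OfNat.ofNat_ne_zero, not_false_eq_true, zero_pow, mul_zero, zero_div,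
    add_zero] at h4
  nlinarith

lemma gap_neg {t : ℝ} (ht : t < 0) (w : ℕ → ℝ) (N : ℕ) (hw : w N = 0) :
    t ^ 2 * ∑ n ∈ range N, w n ^ 2 / lam n ≤ ∑ n ∈ range N, res t w n ^ 2 / lam n := by
  have h1 := pair_eq t w w N
  rw [green' w w N hw] at h1
  have h2 : 0 ≤ ∑ n ∈ range N, (w (n + 1) - w n) * (w (n + 1) - w n) :=
    sum_nonneg fun _ _ => mul_self_nonneg _
  have h3 : 0 ≤ w 0 * w 0 := mul_self_nonneg _
  have e : ∑ n ∈ range N, w n * w n / lam n = ∑ n ∈ range N, w n ^ 2 / lam n :=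
    sum_congr rfl fun n _ => by ring
  rw [e] at h1
  have h4 : -2 * t * ∑ n ∈ range N, res t w n * w n / lam n
      ≤ ∑ n ∈ range N, res t w n ^ 2 / lam n + t ^ 2 * ∑ n ∈ range N, w n ^ 2 / lam n := by
    rw [mul_sum, mul_sum, ← sum_add_distrib]
    refine sum_le_sum fun n _ => ?_
    have hl := lam_pos n
    have a1 : -2 * t * (res t w n * w n / lam n) = (-2 * t * (res t w n * w n)) / lam n := by ring
    have a2 : res t w n ^ 2 / lam n + t ^ 2 * (w n ^ 2 / lam n)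
        = (res t w n ^ 2 + t ^ 2 * w n ^ 2) / lam n := by ring
    rw [a1, a2]
    gcongr
    nlinarith [sq_nonneg (res t w n + t * w n)]
  rw [h1] at h4
  nlinarith [mul_nonneg (neg_nonneg.2 ht.le) (add_nonneg h3 h2)]

end Pool.Agent.H359Z.Chi
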