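import Pool.Agent.H359Z.Chi.A

set_option autoImplicit false

namespace Pool.Agent.H359Z.Chi

open Finset Filter Topology

noncomputable def rr (n : ℕ) : ℝ := Real.sqrt (lam n)

noncomputable def aa (n : ℕ) : ℝ := rr n * rr (n + 1)

noncomputable def bb (n : ℕ) : ℝ := 2 * lam n

lemma rr_pos (n : ℕ) : 0 < rr n := Real.sqrt_pos.2 (lam_pos n)

lemma rr_sq (n : ℕ) : rr n ^ 2 = lam n := Real.sq_sqrt (lam_pos n).le

lemma aa_pos (n : ℕ) : 0 < aa n := mul_pos (rr_pos _) (rr_pos _)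

lemma bb_tendsto : Tendsto bb atTop atTop := by
  rw [tendsto_atTop_atTop]
  intro c
  obtain ⟨m, hm⟩ := exists_nat_ge c
  refine ⟨m ^ 2, fun n hn => ?_⟩
  have h1 : m ≤ n.sqrt := Nat.le_sqrt'.2 hn
  have h2 : (m : ℝ) ≤ n.sqrt := by exact_mod_cast h1
  have h3 := lam_ge n
  have h4 := lam_pos n
  unfold bb; linarith

lemma ratio (n : ℕ) : aa n ^ 2 / (bb n * bb (n + 1)) = 1 / 4 := by
  have h1 := (lam_pos n).ne'
  have h2 := (lam_pos (n + 1)).ne'
  unfold aa bb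
  rw [mul_pow, rr_sq, rr_sq]
  field_simp; ring

/-- real residual -/
noncomputable def FR (t : ℝ) (x : ℕ → ℝ) (k : ℕ) : ℝ :=
  (if k = 0 then 0 else aa (k - 1) * x (k - 1)) + bb k * x k + aa k * x (k + 1) - t * x k

/-- complex residual -/
noncomputable def FC (t : ℝ) (x : ℕ → ℂ) (k : ℕ) : ℂ :=
  (if k = 0 then (0 : ℂ) else (aa (k - 1) : ℂ) * x (k - 1)) + (bb k : ℂ) * x k
    + (aa k : ℂ) * x (k + 1) - (t : ℂ) * x k

lemma FC_re (t : ℝ) (x : ℕ → ℂ) (k : ℕ) : (FC t x k).re = FR t (fun n => (x n).re) k := by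
  unfold FC FR; split_ifs <;> simp

lemma FC_im (t : ℝ) (x : ℕ → ℂ) (k : ℕ) : (FC t x k).im = FR t (fun n => (x n).im) k := by
  unfold FC FR; split_ifs <;> simp

lemma res_eq (t : ℝ) (x : ℕ → ℝ) (k : ℕ) :
    res t (fun n => (-1) ^ n * rr n * x n) k = (-1) ^ k * rr k * FR t x k := by
  unfold res FR Lp aa bb
  rw [← rr_sq]
  rcases k with _ | k
  · simp; ring
  · simp only [Nat.add_eq_zero_iff, one_ne_zero, and_false, if_false, Nat.add_sub_cancel]
    ring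

lemma sq_div_lam (y : ℝ) (k : ℕ) : ((-1) ^ k * rr k * y) ^ 2 / lam k = y ^ 2 := by
  have := (lam_pos k).ne'
  rw [mul_pow, mul_pow, rr_sq, ← pow_mul, mul_comm k 2, pow_mul]
  field_simp
  simp

lemma real_bound {t c : ℝ}
    (h : ∀ (w : ℕ → ℝ) (K : ℕ), w (K ^ 2) = 0 →
      c * ∑ n ∈ range (K ^ 2), w n ^ 2 / lam n ≤ ∑ n ∈ range (K ^ 2), res t w n ^ 2 / lam n)
    (x : ℕ → ℝ) (K : ℕ) (hx : x (K ^ 2) = 0) :
    c * ∑ n ∈ range (K ^ 2), x n ^ 2 ≤ ∑ n ∈ range (K ^ 2), FR t x n ^ 2 := by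
  have := h (fun n => (-1) ^ n * rr n * x n) K (by simp [hx])
  simp only [res_eq, sq_div_lam] at this
  exact this

lemma FC_zero {t : ℝ} {x : ℕ → ℂ} {N : ℕ} (hx : ∀ n, N ≤ n → x n = 0) {k : ℕ} (hk : N + 1 ≤ k) :
    FC t x k = 0 := by
  unfold FC
  rw [if_neg (by omega), hx _ (by omega), hx _ (by omega), hx _ (by omega)]
  simp

lemma exists_bound (x : ℕ →₀ ℂ) : ∃ K : ℕ, ∀ n, K ≤ n → x n = 0 := by
  refine ⟨x.support.sup id + 1, fun n hn => ?_⟩
  by_contra h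
  have := Finset.le_sup (f := id) (Finsupp.mem_support_iff.2 h)
  simp only [id] at this
  omega

lemma summable_of_bound {f : ℕ → ℂ} {N : ℕ} (h : ∀ n, N ≤ n → f n = 0) :
    Summable fun k => ‖f k‖ ^ 2 :=
  summable_of_ne_finset_zero (s := range N) fun k hk => by
    rw [h k (by simpa using hk)]; simp

lemma tsum_of_bound {f : ℕ → ℂ} {N : ℕ} (h : ∀ n, N ≤ n → f n = 0) :
    ∑' k, ‖f k‖ ^ 2 = ∑ k ∈ range N, ‖f k‖ ^ 2 :=
  tsum_eq_sum fun k hk => by rw [h k (by simpa using hk)]; simp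

lemma complex_bound {t c : ℝ}
    (h : ∀ (w : ℕ → ℝ) (K : ℕ), w (K ^ 2) = 0 →
      c * ∑ n ∈ range (K ^ 2), w n ^ 2 / lam n ≤ ∑ n ∈ range (K ^ 2), res t w n ^ 2 / lam n)
    (x : ℕ →₀ ℂ) : c * ∑' k, ‖x k‖ ^ 2 ≤ ∑' k, ‖FC t x k‖ ^ 2 := by
  obtain ⟨K, hK⟩ := exists_bound x
  have hK2 : ∀ n, K ^ 2 ≤ n → x n = 0 := fun n hn => hK n ((Nat.le_self_pow two_ne_zero K).trans hn)
  have h1 := real_bound h (fun n => (x n).re) K (by simp [hK2])
  have h2 := real_bound h (fun n => (x n).im) K (by simp [hK2])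
  rw [tsum_of_bound hK2]
  have h3 : ∑ k ∈ range (K ^ 2), ‖FC t x k‖ ^ 2 ≤ ∑' k, ‖FC t x k‖ ^ 2 :=
    (summable_of_bound fun n hn => FC_zero hK2 hn).sum_le_tsum _ fun _ _ => sq_nonneg _
  refine le_trans ?_ h3
  simp only [Complex.sq_norm, Complex.normSq_apply, FC_re, FC_im, ← sq]
  rw [sum_add_distrib, sum_add_distrib]
  linarith

/-- the approximate point set -/
def SS : Set ℝ := {t : ℝ | ∀ ε : ℝ, 0 < ε → ∀ n : ℕ, ∃ V : Submodule ℂ (ℕ →₀ ℂ),
  Module.finrank ℂ V = n ∧ ∀ x ∈ V, ∑' k : ℕ, ‖FC t x k‖ ^ 2 ≤ ε ^ 2 * ∑' k : ℕ, ‖x k‖ ^ 2}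

lemma not_mem_SS {t c : ℝ} (hc : 0 < c)
    (h : ∀ (w : ℕ → ℝ) (K : ℕ), w (K ^ 2) = 0 →
      c * ∑ n ∈ range (K ^ 2), w n ^ 2 / lam n ≤ ∑ n ∈ range (K ^ 2), res t w n ^ 2 / lam n) :
    t ∉ SS := by
  intro ht
  obtain ⟨V, hV, hx⟩ := ht (Real.sqrt (c / 2)) (by positivity) 1
  have hne : V ≠ ⊥ := by
    rintro rfl
    simp at hV
  obtain ⟨x, hxV, hx0⟩ := Submodule.exists_mem_ne_zero_of_ne_bot hne
  have h1 := hx x hxV
  rw [Real.sq_sqrt (by positivity)] at h1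
  have h2 := complex_bound h x
  obtain ⟨K, hK⟩ := exists_bound x
  obtain ⟨k, hk⟩ : ∃ k, x k ≠ 0 := by
    by_contra hcon
    push Not at hcon
    exact hx0 (Finsupp.ext hcon)
  have h3 : 0 < ∑' k, ‖x k‖ ^ 2 :=
    (summable_of_bound hK).tsum_pos (fun _ => sq_nonneg _) k (by positivity)
  nlinarith

lemma seven_not_mem : (7 : ℝ) ∉ SS :=
  not_mem_SS (c := 1 / 4) (by norm_num) fun w K hw => by linarith [gap_seven w K hw]

lemma neg_not_mem {t : ℝ} (ht : t < 0) : t ∉ SS :=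
  not_mem_SS (c := t ^ 2) (by nlinarith) fun w K hw => gap_neg ht w _ hw

lemma self_adjoint (u : ℕ → ℂ) (hs : Summable fun k => ‖u k‖ ^ 2)
    (he : ∀ k : ℕ, (if k = 0 then (0 : ℂ) else (aa (k - 1) : ℂ) * u (k - 1))
      + (bb k : ℂ) * u k + (aa k : ℂ) * u (k + 1) = Complex.I * u k) : u = 0 := by
  set p : ℕ → ℝ := fun n => (-1) ^ n * rr n * (u n).re with hp
  set q : ℕ → ℝ := fun n => (-1) ^ n * rr n * (u n).im with hq
  have hFC : ∀ k, FC 0 u k = Complex.I * u k := fun k => by unfold FC; rw [he k]; simp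
  have h1 : ∀ k, lam k * Lp p k = -q k := by
    intro k
    have a := res_eq 0 (fun n => (u n).re) k
    rw [← FC_re, hFC] at a
    simp only [res, zero_mul, sub_zero] at a
    rw [hp, a]; simp [hq]
  have h2 : ∀ k, lam k * Lp q k = p k := by
    intro k
    have a := res_eq 0 (fun n => (u n).im) k
    rw [← FC_im, hFC] at a
    simp only [res, zero_mul, sub_zero] at a
    rw [hq, a]; simp [hp]
  have h3 : ∀ k, p k * Lp p k + q k * Lp q k = 0 := by
    intro k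
    have := (lam_pos k).ne'
    apply mul_left_cancel₀ this
    calc lam k * (p k * Lp p k + q k * Lp q k) = p k * (lam k * Lp p k) + q k * (lam k * Lp q k) := by ring
      _ = lam k * 0 := by rw [h1, h2]; ring
  have h4 : ∀ k, 0 ≤ p k * (p (k + 1) - p k) + q k * (q (k + 1) - q k) := by
    intro k
    induction k with
    | zero =>
      have := h3 0
      simp only [Lp, if_true] at this
      nlinarith [sq_nonneg (p 0), sq_nonneg (q 0)]
    | succ k ih =>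
      have := h3 (k + 1)
      simp only [Lp, Nat.add_eq_zero_iff, one_ne_zero, and_false, if_false, Nat.add_sub_cancel] at this
      nlinarith [sq_nonneg (p (k + 1) - p k), sq_nonneg (q (k + 1) - q k)]
  have h5 : Monotone fun k => p k ^ 2 + q k ^ 2 := by
    apply monotone_nat_of_le_succ
    intro k
    nlinarith [h4 k, sq_nonneg (p (k + 1) - p k), sq_nonneg (q (k + 1) - q k)]
  have h6 : ∀ k, ‖u k‖ ^ 2 = (p k ^ 2 + q k ^ 2) / lam k := by
    intro k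
    rw [add_div, hp, hq]
    simp only [sq_div_lam, Complex.sq_norm, Complex.normSq_apply]
    ring
  by_contra hne
  obtain ⟨m, hm⟩ : ∃ m, u m ≠ 0 := by
    by_contra hcon
    push Not at hcon
    exact hne (funext hcon)
  have h7 : 0 < p m ^ 2 + q m ^ 2 := by
    have a : 0 < ‖u m‖ ^ 2 := by positivity
    rw [h6] at a
    exact (div_pos_iff_of_pos_right (lam_pos m)).1 a
  set c := p m ^ 2 + q m ^ 2
  have h8 : Summable fun k : ℕ => ‖u ((k + m) ^ 2)‖ ^ 2 :=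
    hs.comp_injective (i := fun k : ℕ => (k + m) ^ 2) fun a b h => by
      have := Nat.pow_left_injective two_ne_zero h
      omega
  have h9 : Summable fun k : ℕ => c * (((k + (m + 1) : ℕ) : ℝ))⁻¹ := by
    refine Summable.of_nonneg_of_le (fun k => by positivity) (fun k => ?_) h8
    rw [h6, lam_sq, ← div_eq_mul_inv]
    have a : c ≤ p ((k + m) ^ 2) ^ 2 + q ((k + m) ^ 2) ^ 2 :=
      h5 ((Nat.le_add_left m k).trans (Nat.le_self_pow two_ne_zero _))
    push_cast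
    rw [← add_assoc]
    gcongr
  rw [summable_mul_left_iff h7.ne', summable_nat_add_iff (f := fun n : ℕ => ((n : ℝ))⁻¹)] at h9
  exact Real.not_summable_natCast_inv h9

/-- ramp function -/
def ramp (A n : ℕ) : ℝ := ((n - A : ℕ) : ℝ)

lemma Lp_ramp {A : ℕ} (hA : 0 < A) (n : ℕ) : Lp (ramp A) n = if n = A then -1 else 0 := by
  unfold Lp ramp
  rcases lt_trichotomy n A with h | h | h
  · rw [if_neg h.ne, Nat.sub_eq_zero_of_le h.le, Nat.sub_eq_zero_of_le h,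
      Nat.sub_eq_zero_of_le (by omega)]
    simp
  · subst h
    rw [if_neg hA.ne', if_pos rfl, Nat.sub_self, Nat.sub_eq_zero_of_le (by omega : n - 1 ≤ n)]
    simp
  · obtain ⟨j, rfl⟩ : ∃ j, n = A + j + 1 := ⟨n - A - 1, by omega⟩
    rw [if_neg (by omega), if_neg (by omega)]
    have e1 : A + j + 1 - A = j + 1 := by omega
    have e2 : A + j + 1 + 1 - A = j + 2 := by omega
    have e3 : A + j + 1 - 1 - A = j := by omega
    rw [e1, e2, e3]; push_cast; ring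

/-- tent function -/
def tent (K n : ℕ) : ℝ := 5 * ramp (K ^ 2) n - 8 * ramp ((2 * K) ^ 2) n + 3 * ramp ((3 * K) ^ 2) n

lemma tent_lo {K n : ℕ} (h : n ≤ K ^ 2) : tent K n = 0 := by
  unfold tent ramp
  rw [Nat.sub_eq_zero_of_le h, Nat.sub_eq_zero_of_le (by nlinarith), Nat.sub_eq_zero_of_le (by nlinarith)]
  simp

lemma tent_hi {K n : ℕ} (h : (3 * K) ^ 2 ≤ n) : tent K n = 0 := by
  unfold tent ramp
  rw [Nat.cast_sub h, Nat.cast_sub (by nlinarith), Nat.cast_sub (by nlinarith)]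
  push_cast; ring

lemma tent_peak (K : ℕ) : tent K ((2 * K) ^ 2) = 15 * K ^ 2 := by
  unfold tent ramp
  rw [Nat.sub_self, Nat.sub_eq_zero_of_le (by nlinarith : (2 * K) ^ 2 ≤ (3 * K) ^ 2),
    Nat.cast_sub (by nlinarith)]
  push_cast; ring

lemma Lp_tent {K : ℕ} (hK : 0 < K) (n : ℕ) : Lp (tent K) n =
    5 * (if n = K ^ 2 then -1 else 0) - 8 * (if n = (2 * K) ^ 2 then -1 else 0)
      + 3 * (if n = (3 * K) ^ 2 then -1 else 0) := by
  rw [← Lp_ramp (by positivity), ← Lp_ramp (by positivity), ← Lp_ramp (by positivity)]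
  unfold Lp tent
  split_ifs <;> ring

/-- approximate null vector -/
noncomputable def uu (K n : ℕ) : ℝ := (-1) ^ n * tent K n / rr n

lemma FR_uu_sq (K n : ℕ) : FR 0 (uu K) n ^ 2 = lam n * Lp (tent K) n ^ 2 := by
  have h1 : (fun n => (-1) ^ n * rr n * uu K n) = tent K := by
    funext n
    have := (rr_pos n).ne'
    unfold uu
    field_simp
    rw [← pow_mul, mul_comm n 2, pow_mul]; simp
  have h2 := res_eq 0 (uu K) n
  rw [h1] at h2
  rw [← sq_div_lam _ n, ← h2]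
  have := (lam_pos n).ne'
  unfold res; field_simp; ring

lemma sum_FR_uu {K : ℕ} (hK : 0 < K) (N : ℕ) : ∑ n ∈ range N, FR 0 (uu K) n ^ 2 ≤ 278 * K := by
  have hK' : (1 : ℝ) ≤ K := by exact_mod_cast hK
  have h1 : ∀ n, FR 0 (uu K) n ^ 2 = (if n = K ^ 2 then 25 * ((K : ℝ) + 1) else 0)
      + (if n = (2 * K) ^ 2 then 64 * (2 * (K : ℝ) + 1) else 0)
      + (if n = (3 * K) ^ 2 then 9 * (3 * (K : ℝ) + 1) else 0) := by
    intro n
    rw [FR_uu_sq, Lp_tent hK]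
    have a1 : K ^ 2 ≠ (2 * K) ^ 2 := by nlinarith
    have a2 : K ^ 2 ≠ (3 * K) ^ 2 := by nlinarith
    have a3 : (2 * K) ^ 2 ≠ (3 * K) ^ 2 := by nlinarith
    by_cases b1 : n = K ^ 2
    · rw [b1, if_pos rfl, if_pos rfl, if_neg a1, if_neg a1, if_neg a2, if_neg a2, lam_sq]; ring
    by_cases b2 : n = (2 * K) ^ 2
    · rw [b2, if_pos rfl, if_pos rfl, if_neg a1.symm, if_neg a1.symm, if_neg a3, if_neg a3, lam_sq]
      push_cast; ring
    by_cases b3 : n = (3 * K) ^ 2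
    · rw [b3, if_pos rfl, if_pos rfl, if_neg a2.symm, if_neg a2.symm, if_neg a3.symm, if_neg a3.symm,
        lam_sq]
      push_cast; ring
    simp [b1, b2, b3]
  simp_rw [h1]
  rw [sum_add_distrib, sum_add_distrib, sum_ite_eq', sum_ite_eq', sum_ite_eq']
  split_ifs <;> linarith

lemma uu_peak {K : ℕ} (hK : 0 < K) : 75 * (K : ℝ) ^ 3 ≤ uu K ((2 * K) ^ 2) ^ 2 := by
  have hK' : (1 : ℝ) ≤ K := by exact_mod_cast hK
  unfold uu
  rw [div_pow, mul_pow, rr_sq, lam_sq, tent_peak, ← pow_mul, mul_comm _ 2, pow_mul,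
    le_div_iff₀ (by positivity)]
  push_cast
  have : (0 : ℝ) < K ^ 3 := by positivity
  simp only [even_two, Even.neg_pow, one_pow, one_mul]
  nlinarith

/-- approximate null vector as a finitely supported sequence -/
noncomputable def uf (K : ℕ) : ℕ →₀ ℂ :=
  Finsupp.onFinset (range ((3 * K) ^ 2)) (fun n => (uu K n : ℂ)) fun n hn => by
    by_contra h
    apply hn
    simp [uu, tent_hi (by simpa using h : (3 * K) ^ 2 ≤ n)]

lemma uf_apply (K n : ℕ) : uf K n = (uu K n : ℂ) := rfl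

lemma zero_mem : (0 : ℝ) ∈ SS := by
  intro ε hε n
  obtain ⟨K0, hK0⟩ := exists_nat_gt (2 * n / ε)
  have hK0' : (0 : ℝ) < K0 := lt_of_le_of_lt (by positivity) hK0
  have hK0n : 0 < K0 := by exact_mod_cast hK0'
  set K : Fin n → ℕ := fun j => K0 * 4 ^ (j : ℕ) with hK
  have hKpos : ∀ j, 0 < K j := fun j => by simp only [hK]; positivity
  have hKge : ∀ j, K0 ≤ K j := fun j => Nat.le_mul_of_pos_right _ (by positivity)
  have hoff : ∀ i j, i ≠ j → uu (K j) ((2 * K i) ^ 2) = 0 := by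
    intro i j hij
    have key : ∀ i j : Fin n, i < j → 4 * K i ≤ K j := by
      intro i j h
      have : 4 ^ ((i : ℕ) + 1) ≤ 4 ^ (j : ℕ) := Nat.pow_le_pow_right (by norm_num) h
      simp only [hK]
      calc 4 * (K0 * 4 ^ (i : ℕ)) = K0 * 4 ^ ((i : ℕ) + 1) := by ring
        _ ≤ _ := Nat.mul_le_mul_left _ this
    unfold uu
    rcases lt_or_gt_of_ne hij with h | h
    · rw [tent_lo (Nat.pow_le_pow_left (by have := key i j h; omega) 2)]; simp
    · rw [tent_hi (Nat.pow_le_pow_left (by have := key j i h; omega) 2)]; simp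
  let Φ : (Fin n → ℂ) →ₗ[ℂ] (ℕ →₀ ℂ) := Fintype.linearCombination ℂ fun j => uf (K j)
  have hΦ : ∀ c m, Φ c m = ∑ j, c j * (uu (K j) m : ℂ) := by
    intro c m
    simp [Φ, Fintype.linearCombination_apply, Finsupp.finsetSum_apply, uf_apply]
  have hpk : ∀ c i, Φ c ((2 * K i) ^ 2) = c i * (uu (K i) ((2 * K i) ^ 2) : ℂ) := by
    intro c i
    rw [hΦ, sum_eq_single i]
    · intro j _ hj; rw [hoff i j hj.symm]; simp
    · simp
  have hinj : Function.Injective Φ := by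
    rw [injective_iff_map_eq_zero]
    intro c hc
    funext i
    have h1 := hpk c i
    rw [hc] at h1
    have h2 : uu (K i) ((2 * K i) ^ 2) ≠ 0 := by
      intro h
      have := uu_peak (hKpos i)
      rw [h] at this
      have h3 : (0 : ℝ) < K i := by exact_mod_cast hKpos i
      have : (0 : ℝ) < 75 * (K i : ℝ) ^ 3 := by positivity
      linarith
    simpa [h2] using h1.symm
  refine ⟨LinearMap.range Φ, by rw [LinearMap.finrank_range_of_inj hinj]; simp, ?_⟩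
  rintro x ⟨c, rfl⟩
  obtain ⟨N, hN⟩ := exists_bound (Φ c)
  rw [tsum_of_bound fun k hk => FC_zero hN hk]
  set X := ∑' k, ‖Φ c k‖ ^ 2 with hX
  have hX0 : 0 ≤ X := tsum_nonneg fun _ => sq_nonneg _
  have h1 : ∀ k, FC 0 (Φ c) k = ∑ j, c j * (FR 0 (uu (K j)) k : ℂ) := by
    intro k
    unfold FC FR
    simp only [hΦ, mul_sum]
    split_ifs
    · rw [zero_add, ← sum_add_distrib, ← sum_sub_distrib]
      refine sum_congr rfl fun j _ => ?_
      push_cast; ring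
    · rw [← sum_add_distrib, ← sum_add_distrib, ← sum_sub_distrib]
      refine sum_congr rfl fun j _ => ?_
      push_cast; ring
  have h2 : ∀ k, ‖FC 0 (Φ c) k‖ ^ 2 ≤ n * ∑ j, ‖c j‖ ^ 2 * FR 0 (uu (K j)) k ^ 2 := by
    intro k
    rw [h1]
    have a1 := norm_sum_le univ fun j => c j * (FR 0 (uu (K j)) k : ℂ)
    have a2 := sq_sum_le_card_mul_sum_sq (s := univ) (f := fun j => ‖c j * (FR 0 (uu (K j)) k : ℂ)‖)
    refine (pow_le_pow_left₀ (norm_nonneg _) a1 2).trans (a2.trans (le_of_eq ?_))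
    simp [mul_pow]
  have h3 : ∀ j, ‖c j‖ ^ 2 * (278 * K j) ≤ 4 / K0 ^ 2 * X := by
    intro j
    have a1 : ‖Φ c ((2 * K j) ^ 2)‖ ^ 2 ≤ X :=
      (summable_of_bound hN).le_tsum _ fun _ _ => sq_nonneg _
    rw [hpk, norm_mul, mul_pow, Complex.norm_real, Real.norm_eq_abs, sq_abs] at a1
    have a2 := uu_peak (hKpos j)
    have a3 : (K0 : ℝ) ≤ K j := by exact_mod_cast hKge j
    have a4 : ‖c j‖ ^ 2 * (75 * (K j : ℝ) ^ 3) ≤ X := le_trans (by gcongr) a1
    rw [div_mul_eq_mul_div, le_div_iff₀ (by positivity)]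
    calc ‖c j‖ ^ 2 * (278 * K j) * K0 ^ 2 ≤ ‖c j‖ ^ 2 * (300 * K j) * (K j) ^ 2 := by
          gcongr; norm_num
      _ = 4 * (‖c j‖ ^ 2 * (75 * (K j : ℝ) ^ 3)) := by ring
      _ ≤ 4 * X := by linarith
  calc ∑ k ∈ range (N + 1), ‖FC 0 (Φ c) k‖ ^ 2
      ≤ ∑ k ∈ range (N + 1), n * ∑ j, ‖c j‖ ^ 2 * FR 0 (uu (K j)) k ^ 2 := sum_le_sum fun k _ => h2 k
    _ = n * ∑ j, ‖c j‖ ^ 2 * ∑ k ∈ range (N + 1), FR 0 (uu (K j)) k ^ 2 := by
        rw [← mul_sum, sum_comm]; simp only [mul_sum]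
    _ ≤ n * ∑ _j : Fin n, 4 / K0 ^ 2 * X := by
        refine mul_le_mul_of_nonneg_left (sum_le_sum fun j _ => ?_) (Nat.cast_nonneg _)
        exact le_trans (mul_le_mul_of_nonneg_left (sum_FR_uu (hKpos j) _) (sq_nonneg _)) (h3 j)
    _ = (2 * n / K0) ^ 2 * X := by simp; ring
    _ ≤ ε ^ 2 * X := by
        gcongr
        rw [div_le_iff₀ hK0']
        rw [div_lt_iff₀ hε] at hK0
        linarith

end Pool.Agent.H359Z.Chi
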